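import Pool.Agent.Helper30.CIR.Goals

/-!
# Project CIR (MP_f32c9c_an), packet PIN: integrals with parameters
-/

set_option autoImplicit false

open Set Filter Topology MeasureTheory

open scoped ContDiff Convolution

namespace Pool.Agent.Helper45.CIR

open Pool.Agent.Helper56.RZ Pool.Agent.Helper30.CIR

/-- a bump function equal to one on `[-1, 0]` -/
noncomputable def chi : ContDiffBump (-(1 / 2) : ℝ) := ⟨1, 2, one_pos, one_lt_two⟩

theorem chi_one {t : ℝ} (h : t ∈ Ioc (0 : ℝ) 1) : chi (0 - t) = 1 := by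
  apply chi.one_of_mem_closedBall
  rw [Metric.mem_closedBall, Real.dist_eq, abs_le]
  have h1 := h.1
  have h2 := h.2
  constructor
  · show -(1 : ℝ) ≤ _
    linarith
  · show _ ≤ (1 : ℝ)
    linarith

theorem chi_zero {y : ℝ} (h : y ∉ Metric.closedBall (-(1 / 2) : ℝ) 2) : chi y = 0 := by
  apply chi.zero_of_le_dist
  rw [Metric.mem_closedBall, not_le] at h
  exact h.le

theorem gPIN : StmtPIN := by
  intro N s V G hs hV hG
  obtain ⟨n, rfl⟩ : ∃ n : ℕ∞, s = (n : WithTop ℕ∞) := by
    have h : s ≠ ⊤ := (hs.trans_lt (WithTop.coe_lt_top _)).ne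
    exact ⟨s.untop h, (WithTop.coe_untop s h).symm⟩
  have hf : LocallyIntegrable ((Ioc (0 : ℝ) 1).indicator fun _ => (1 : ℝ)) volume := by
    apply Integrable.locallyIntegrable
    rw [integrable_indicator_iff measurableSet_Ioc]
    exact integrableOn_const (by simp)
  have hg : ContDiffOn ℝ n (↿fun (z : E N) (y : ℝ) => chi y • G (-y, z)) (V ×ˢ univ) := by
    show ContDiffOn ℝ n (fun q : E N × ℝ => chi q.2 • G (-q.2, q.1)) (V ×ˢ univ)
    have h1 : ContDiffOn ℝ n (fun q : E N × ℝ => chi q.2) (V ×ˢ univ) :=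
      ((chi.contDiff (n := n)).comp contDiff_snd).contDiffOn
    have h2 : ContDiffOn ℝ n (fun q : E N × ℝ => G (-q.2, q.1)) (V ×ˢ univ) := by
      refine hG.comp (f := fun q : E N × ℝ => (-q.2, q.1))
        (contDiff_snd.neg.prodMk contDiff_fst).contDiffOn ?_
      intro q hq
      exact ⟨mem_univ _, hq.1⟩
    exact h1.smul h2
  have h := contDiffOn_convolution_right_with_param_comp
    (ContinuousLinearMap.lsmul ℝ ℝ : ℝ →L[ℝ] ℂ →L[ℝ] ℂ) (μ := (volume : Measure ℝ))
    (v := fun _ : E N => (0 : ℝ)) contDiffOn_const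
    (g := fun (z : E N) (y : ℝ) => chi y • G (-y, z)) (k := Metric.closedBall (-(1 / 2) : ℝ) 2)
    hV (isCompact_closedBall _ _)
    (by
      intro z y _ hy
      show chi y • G (-y, z) = 0
      rw [chi_zero hy, zero_smul]) hf hg
  refine h.congr fun z hz => ?_
  rw [convolution_def, intervalIntegral.integral_of_le zero_le_one,
    ← integral_indicator measurableSet_Ioc]
  congr 1
  funext t
  by_cases ht : t ∈ Ioc (0 : ℝ) 1
  · rw [indicator_of_mem ht, indicator_of_mem ht, ContinuousLinearMap.lsmul_apply, one_smul,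
      chi_one ht, one_smul, zero_sub, neg_neg]
  · rw [indicator_of_notMem ht, indicator_of_notMem ht, ContinuousLinearMap.lsmul_apply, zero_smul]

end Pool.Agent.Helper45.CIR
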